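import Pool.Agent.Helper74.EX.Words
import Pool.Agent.Helper38.EX.BRc

/-!
# Sizes of codes with given numbers of elements of each type

The set of the sizes of the codes with given (truncated) numbers of elements of each type is defined by a
property of quantifier rank at most three in a vocabulary of unary and binary relations.
-/

set_option autoImplicit false

namespace Pool.Agent.Helper74.EX

open FirstOrder FirstOrder.Language Pool.Agent.Helper20.Spectra Pool.Agent.Helper38.EX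

/-- truncated counting by numbered singletons -/
lemma count_iff {M : Type} [Finite M] (T : M → Prop) {t m : ℕ} (hm : m ≤ t) :
    (∃ Z : Fin t → M → Prop, (∀ j : {j : Fin t // (j : ℕ) < m}, ∃ x, Z j.1 x ∧ T x) ∧
      (∀ j : {j : Fin t // (j : ℕ) < m}, ∀ x y, Z j.1 x → Z j.1 y → x = y) ∧
      (∀ j j' : {j : Fin t // (j : ℕ) < m}, j ≠ j' → ∀ x, Z j.1 x → ¬ Z j'.1 x) ∧
      (m < t → ∀ x, T x → ∃ j : {j : Fin t // (j : ℕ) < m}, Z j.1 x)) ↔
    min (Nat.card {x // T x}) t = m := by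
  classical
  have hcard : Nat.card {j : Fin t // (j : ℕ) < m} = m := by
    have e : {j : Fin t // (j : ℕ) < m} ≃ Fin m :=
      ⟨fun j => ⟨j.1, j.2⟩, fun j => ⟨⟨j, lt_of_lt_of_le j.2 hm⟩, j.2⟩, fun j => rfl, fun j => rfl⟩
    rw [Nat.card_congr e, Nat.card_eq_fintype_card, Fintype.card_fin]
  constructor
  · rintro ⟨Z, h1, h2, h3, h4⟩
    choose g hg hgT using h1
    let G : {j : Fin t // (j : ℕ) < m} → {x // T x} := fun j => ⟨g j, hgT j⟩
    have hinj : Function.Injective G := by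
      intro j j' hjj
      by_contra hne
      have e : g j = g j' := congrArg Subtype.val hjj
      have := hg j'
      rw [← e] at this
      exact h3 j j' hne (g j) (hg j) this
    have hle : m ≤ Nat.card {x // T x} := by
      rw [← hcard]
      exact Nat.card_le_card_of_injective G hinj
    by_cases hmt : m < t
    · have hsurj : Function.Surjective G := by
        rintro ⟨x, hx⟩
        obtain ⟨j, hj⟩ := h4 hmt x hx
        exact ⟨j, Subtype.ext (h2 j _ _ (hg j) hj)⟩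
      have hge : Nat.card {x // T x} ≤ m := by
        rw [← hcard]
        exact Nat.card_le_card_of_surjective G hsurj
      omega
    · omega
  · intro h
    let e := Finite.equivFin {x // T x}
    refine ⟨fun j x => ∃ hx : T x, ((e ⟨x, hx⟩ : Fin _) : ℕ) = j, ?_, ?_, ?_, ?_⟩
    · rintro ⟨j, hj⟩
      have hlt : (j : ℕ) < Nat.card {x // T x} := by omega
      refine ⟨(e.symm ⟨j, hlt⟩).1, ⟨(e.symm ⟨j, hlt⟩).2, ?_⟩, (e.symm ⟨j, hlt⟩).2⟩
      simp
    · rintro ⟨j, hj⟩ x y ⟨hx, hx'⟩ ⟨hy, hy'⟩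
      have h5 : e ⟨x, hx⟩ = e ⟨y, hy⟩ := Fin.ext (hx'.trans hy'.symm)
      exact congrArg Subtype.val (e.injective h5)
    · rintro ⟨j, hj⟩ ⟨j', hj'⟩ hne x ⟨hx, hx'⟩ ⟨hy, hy'⟩
      apply hne
      apply Subtype.ext
      apply Fin.ext
      exact hx'.symm.trans hy'
    · intro hmt x hx
      have hlt := (e ⟨x, hx⟩).2
      have hlt' : ((e ⟨x, hx⟩ : Fin _) : ℕ) < m := by omega
      exact ⟨⟨⟨_, lt_of_lt_of_le hlt' hm⟩, hlt'⟩, hx, rfl⟩

section

variable (D : ℕ) (K : Type) (r t : ℕ)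

/-- the unary symbols: labels, equalities of words, labels of words, numbered singletons -/
abbrev SU : Type := K ⊕ ((Wd D r × Wd D r) ⊕ ((Wd D r × K) ⊕ (Ty D K r × Fin t)))

/-- the symbols -/
abbrev SY : Type := Wd D r ⊕ SU D K r t

/-- their arities -/
abbrev arY : SY D K r t → ℕ := Sum.elim (fun _ => 2) (fun _ => 1)

end

variable {D : ℕ} {K : Type} {r t : ℕ}

/-- the empty word -/
def wN : Wd D r := ⟨[], Nat.zero_le _⟩

/-- words with one letter -/
def w1 (hr : 2 ≤ r) (i : Fin D) : Wd D r := ⟨[i], by rw [List.length_singleton]; omega⟩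

/-- words with two letters -/
def w2 (hr : 2 ≤ r) (j i : Fin D) : Wd D r := ⟨[j, i], hr⟩

/-- longer words -/
def wC (i : Fin D) (w : {w : Wd D r // w.1.length + 1 ≤ r}) : Wd D r := ⟨i :: w.1.1, w.2⟩

/-- the element `x` has the type `σ` -/
def TyAt (M : Type) (R : Interp (SY D K r t) (arY D K r t) M) (σ : Ty D K r) (x : M) : Prop :=
  (∀ p : Wd D r × Wd D r, R (Sum.inr (Sum.inr (Sum.inl p))) (fun _ => x) ↔ σ.1 p.1 p.2) ∧
    ∀ p : Wd D r × K, R (Sum.inr (Sum.inr (Sum.inr (Sum.inl p)))) (fun _ => x) ↔ σ.2 p.1 p.2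

/-- the axioms on the functions -/
def AxF (hr : 2 ≤ r) (M : Type) (R : Interp (SY D K r t) (arY D K r t) M) : Prop :=
  (∀ i : Fin D, (∀ x : M, ∃ y : M, R (Sum.inl (w1 hr i)) ![x, y]) ∧
    ∀ x y y' : M, R (Sum.inl (w1 hr i)) ![x, y] → R (Sum.inl (w1 hr i)) ![x, y'] → y = y') ∧
  (∀ x y : M, R (Sum.inl wN) ![x, y] ↔ x = y) ∧
  ∀ q : Fin D × {w : Wd D r // w.1.length + 1 ≤ r}, ∀ x y : M, R (Sum.inl (wC q.1 q.2)) ![x, y] ↔
    ∃ u : M, R (Sum.inl q.2.1) ![x, u] ∧ R (Sum.inl (w1 hr q.1)) ![u, y]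

/-- the axioms on the unary symbols -/
def AxU (hr : 2 ≤ r) (M : Type) (R : Interp (SY D K r t) (arY D K r t) M) : Prop :=
  (∀ p : Wd D r × Wd D r, ∀ x : M, R (Sum.inr (Sum.inr (Sum.inl p))) (fun _ => x) ↔
    ∃ y : M, R (Sum.inl p.1) ![x, y] ∧ R (Sum.inl p.2) ![x, y]) ∧
  (∀ p : Wd D r × K, ∀ x : M, R (Sum.inr (Sum.inr (Sum.inr (Sum.inl p)))) (fun _ => x) ↔
    ∃ y : M, R (Sum.inl p.1) ![x, y] ∧ R (Sum.inr (Sum.inl p.2)) (fun _ => y)) ∧
  ∀ i : Fin D, ∀ x : M, ∃ j : Fin D, R (Sum.inr (Sum.inr (Sum.inl (w2 hr j i, wN)))) (fun _ => x)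

/-- the axioms on the numbered singletons -/
def AxZ (p : Ty D K r → ℕ) (M : Type) (R : Interp (SY D K r t) (arY D K r t) M) : Prop :=
  ∀ σ : Ty D K r, (∀ j : {j : Fin t // (j : ℕ) < p σ}, ∃ x : M,
      R (Sum.inr (Sum.inr (Sum.inr (Sum.inr (σ, j.1))))) (fun _ => x) ∧ TyAt M R σ x) ∧
    (∀ j : {j : Fin t // (j : ℕ) < p σ}, ∀ x y : M,
      R (Sum.inr (Sum.inr (Sum.inr (Sum.inr (σ, j.1))))) (fun _ => x) →
      R (Sum.inr (Sum.inr (Sum.inr (Sum.inr (σ, j.1))))) (fun _ => y) → x = y) ∧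
    (∀ j j' : {j : Fin t // (j : ℕ) < p σ}, j ≠ j' → ∀ x : M,
      R (Sum.inr (Sum.inr (Sum.inr (Sum.inr (σ, j.1))))) (fun _ => x) →
      ¬ R (Sum.inr (Sum.inr (Sum.inr (Sum.inr (σ, j'.1))))) (fun _ => x)) ∧
    (p σ < t → ∀ x : M, TyAt M R σ x → ∃ j : {j : Fin t // (j : ℕ) < p σ},
      R (Sum.inr (Sum.inr (Sum.inr (Sum.inr (σ, j.1))))) (fun _ => x))

private lemma pj1_74 {α : Type} (a : α) : Pj α (Fin 1) (fun _ v => fun _ => v a) :=
  ⟨fun _ => a, fun _ _ => rfl⟩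

private lemma pj2_74 {α : Type} (a b : α) : Pj α (Fin 2) (fun _ v => ![v a, v b]) :=
  ⟨![a, b], fun M v => by funext i; fin_cases i <;> rfl⟩

lemma hU74 {α : Type} {s : ℕ} (u : SU D K r t) (a : α) :
    FDr (SY D K r t) (arY D K r t) s α (fun _ R v => R (Sum.inr u) (fun _ => v a)) :=
  FDr.rel (S := SY D K r t) (ar := arY D K r t) (Sum.inr u) (pj1_74 a)

lemma hB74 {α : Type} {s : ℕ} (w : Wd D r) (a b : α) :
    FDr (SY D K r t) (arY D K r t) s α (fun _ R v => R (Sum.inl w) ![v a, v b]) :=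
  FDr.rel (S := SY D K r t) (ar := arY D K r t) (Sum.inl w) (pj2_74 a b)

lemma TyAt_FDr [Finite K] {α : Type} {s : ℕ} (σ : Ty D K r) (a : α) :
    FDr (SY D K r t) (arY D K r t) s α (fun M R v => TyAt M R σ (v a)) := by
  unfold TyAt
  refine FDr.and (FDr.all_fin (fun p => (hU74 _ a).iff (FDr.const _)))
    (FDr.all_fin (fun p => (hU74 _ a).iff (FDr.const _)))

lemma AxF_FDr (hr : 2 ≤ r) :
    FDr (SY D K r t) (arY D K r t) 3 Empty (fun M R _ => AxF hr M R) := by
  unfold AxF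
  refine FDr.and (FDr.all_fin (fun i => FDr.and ?_ ?_)) (FDr.and ?_ (FDr.all_fin (fun q => ?_)))
  · refine (FDr.all1 (r := 1) (FDr.ex1 (r := 0) ?_)).mono (by omega)
    exact hB74 (w1 hr i) (Sum.inl (Sum.inr ())) (Sum.inr ())
  · refine FDr.all1 (r := 2) (FDr.all1 (r := 1) (FDr.all1 (r := 0) ?_))
    refine (hB74 (w1 hr i) (Sum.inl (Sum.inl (Sum.inr ()))) (Sum.inl (Sum.inr ()))).imp
      ((hB74 (w1 hr i) (Sum.inl (Sum.inl (Sum.inr ()))) (Sum.inr ())).imp ?_)
    exact FDr.eq (El.var (Sum.inl (Sum.inr ()))) (El.var (Sum.inr ()))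
  · refine (FDr.all1 (r := 1) (FDr.all1 (r := 0) ?_)).mono (by omega)
    refine (hB74 wN (Sum.inl (Sum.inr ())) (Sum.inr ())).iff ?_
    exact FDr.eq (El.var (Sum.inl (Sum.inr ()))) (El.var (Sum.inr ()))
  · refine FDr.all1 (r := 2) (FDr.all1 (r := 1) ?_)
    refine (hB74 (wC q.1 q.2) (Sum.inl (Sum.inr ())) (Sum.inr ())).iff (FDr.ex1 (r := 0) ?_)
    exact (hB74 q.2.1 (Sum.inl (Sum.inl (Sum.inr ()))) (Sum.inr ())).and
      (hB74 (w1 hr q.1) (Sum.inr ()) (Sum.inl (Sum.inr ())))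

lemma AxU_FDr [Finite K] (hr : 2 ≤ r) :
    FDr (SY D K r t) (arY D K r t) 3 Empty (fun M R _ => AxU hr M R) := by
  unfold AxU
  refine FDr.and (FDr.all_fin (fun p => ?_)) (FDr.and (FDr.all_fin (fun p => ?_)) (FDr.all_fin (fun i => ?_)))
  · refine (FDr.all1 (r := 1) ((hU74 _ (Sum.inr ())).iff (FDr.ex1 (r := 0) ?_))).mono (by omega)
    exact (hB74 p.1 (Sum.inl (Sum.inr ())) (Sum.inr ())).and (hB74 p.2 (Sum.inl (Sum.inr ())) (Sum.inr ()))
  · refine (FDr.all1 (r := 1) ((hU74 _ (Sum.inr ())).iff (FDr.ex1 (r := 0) ?_))).mono (by omega)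
    exact (hB74 p.1 (Sum.inl (Sum.inr ())) (Sum.inr ())).and (hU74 _ (Sum.inr ()))
  · refine (FDr.all1 (r := 0) (FDr.ex_fin (fun j => ?_))).mono (by omega)
    exact hU74 _ (Sum.inr ())

lemma AxZ_FDr [Finite K] (p : Ty D K r → ℕ) :
    FDr (SY D K r t) (arY D K r t) 3 Empty (fun M R _ => AxZ p M R) := by
  unfold AxZ
  refine FDr.all_fin (fun σ => FDr.and (FDr.all_fin (fun j => ?_)) (FDr.and (FDr.all_fin (fun j => ?_))
    (FDr.and (FDr.all_fin (fun j => FDr.all_fin (fun j' => FDr.imp (FDr.const _) ?_)))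
      (FDr.imp (FDr.const _) ?_))))
  · refine (FDr.ex1 (r := 0) ?_).mono (by omega)
    exact (hU74 _ (Sum.inr ())).and (TyAt_FDr σ (Sum.inr ()))
  · refine (FDr.all1 (r := 1) (FDr.all1 (r := 0) ?_)).mono (by omega)
    refine (hU74 _ (Sum.inl (Sum.inr ()))).imp ((hU74 _ (Sum.inr ())).imp ?_)
    exact FDr.eq (El.var (Sum.inl (Sum.inr ()))) (El.var (Sum.inr ()))
  · refine (FDr.all1 (r := 0) ?_).mono (by omega)
    exact (hU74 _ (Sum.inr ())).imp (hU74 _ (Sum.inr ())).not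
  · refine (FDr.all1 (r := 0) ?_).mono (by omega)
    exact (TyAt_FDr σ (Sum.inr ())).imp (FDr.ex_fin (fun j => hU74 _ (Sum.inr ())))

/-- the sizes of the codes with the truncated numbers `p` of elements of each type -/
def profSizes (D : ℕ) (K : Type) (r t : ℕ) (p : Ty D K r → ℕ) : Set ℕ :=
  {n | 1 ≤ n ∧ ∃ (M : Type) (_ : Fintype M) (f : Fin D → M → M) (c : K → M → Prop), Fintype.card M = n ∧
    Sy f ∧ ∀ σ, min (cnt f c r σ) t = p σ}

theorem profSizes_BR [Finite K] (hr : 2 ≤ r) (p : Ty D K r → ℕ) (hp : ∀ σ, p σ ≤ t) :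
    BR 3 2 (profSizes D K r t p) := by
  classical
  refine ⟨SY D K r t, inferInstance, arY D K r t,
    fun M R _ => AxF hr M R ∧ AxU hr M R ∧ AxZ p M R, ?_,
    (AxF_FDr hr).and ((AxU_FDr hr).and (AxZ_FDr p)), ?_⟩
  · rintro (w | u)
    · exact le_rfl
    · exact Nat.le_succ 1
  ext n
  constructor
  · -- from codes to structures
    rintro ⟨hn, M, hM, f, c, hc, hS, hcnt⟩
    have hZ := fun σ => (count_iff (fun x => tp f c r x = σ) (hp σ)).2 (hcnt σ)
    choose Z hZ1 hZ2 hZ3 hZ4 using hZ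
    let R : Interp (SY D K r t) (arY D K r t) M := fun s => match s with
      | Sum.inl w => fun (v : Fin 2 → M) => wd f w.1 (v 0) = v 1
      | Sum.inr (Sum.inl k) => fun (v : Fin 1 → M) => c k (v 0)
      | Sum.inr (Sum.inr (Sum.inl p)) => fun (v : Fin 1 → M) => wd f p.1.1 (v 0) = wd f p.2.1 (v 0)
      | Sum.inr (Sum.inr (Sum.inr (Sum.inl p))) => fun (v : Fin 1 → M) => c p.2 (wd f p.1.1 (v 0))
      | Sum.inr (Sum.inr (Sum.inr (Sum.inr p))) => fun (v : Fin 1 → M) => Z p.1 p.2 (v 0)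
    have hT : ∀ σ x, TyAt M R σ x ↔ tp f c r x = σ := by
      intro σ x
      constructor
      · rintro ⟨h1, h2⟩
        refine Prod.ext ?_ ?_
        · funext w w'
          exact propext (h1 (w, w'))
        · funext w k
          exact propext (h2 (w, k))
      · rintro rfl
        exact ⟨fun p => Iff.rfl, fun p => Iff.rfl⟩
    refine ⟨hn, M, hM, R, hc, ⟨?_, ?_, ?_⟩, ⟨?_, ?_, ?_⟩, ?_⟩
    · intro i
      refine ⟨fun x => ⟨f i x, rfl⟩, fun x y y' h1 h2 => ?_⟩
      exact (Eq.symm h1).trans h2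
    · intro x y
      exact Iff.rfl
    · intro q x y
      constructor
      · intro h1
        exact ⟨wd f q.2.1.1 x, rfl, h1⟩
      · rintro ⟨u, h1, h2⟩
        have h1 : wd f q.2.1.1 x = u := h1
        subst h1
        exact h2
    · intro p x
      constructor
      · intro h1
        exact ⟨wd f p.1.1 x, rfl, Eq.symm h1⟩
      · rintro ⟨y, h1, h2⟩
        exact Eq.trans h1 (Eq.symm h2)
    · intro p x
      constructor
      · intro h1
        exact ⟨wd f p.1.1 x, rfl, h1⟩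
      · rintro ⟨y, h1, h2⟩
        have h1 : wd f p.1.1 x = y := h1
        subst h1
        exact h2
    · intro i x
      exact hS x i
    · intro σ
      refine ⟨fun j => ?_, fun j x y h1 h2 => hZ2 σ j x y h1 h2, fun j j' h1 x h2 => hZ3 σ j j' h1 x h2,
        fun h1 x h2 => hZ4 σ h1 x ((hT σ x).1 h2)⟩
      obtain ⟨x, hx1, hx2⟩ := hZ1 σ j
      exact ⟨x, hx1, (hT σ x).2 hx2⟩
  · -- from structures to codes
    rintro ⟨hn, M, hM, R, hc, ⟨hF1, hF2, hF3⟩, ⟨hU1, hU2, hU3⟩, hZ⟩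
    have hf : ∀ (i : Fin D) (x : M), ∃ y : M, R (Sum.inl (w1 hr i)) ![x, y] := fun i x => (hF1 i).1 x
    choose f hf using hf
    let c : K → M → Prop := fun k x => R (Sum.inr (Sum.inl k)) (fun _ => x)
    have hf' : ∀ (i : Fin D) (x y : M), R (Sum.inl (w1 hr i)) ![x, y] ↔ f i x = y := by
      intro i x y
      constructor
      · intro h1
        exact (hF1 i).2 x _ _ (hf i x) h1
      · rintro rfl
        exact hf i x
    have hW : ∀ (l : List (Fin D)) (hl : l.length ≤ r) (x y : M),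
        R (Sum.inl (⟨l, hl⟩ : Wd D r)) ![x, y] ↔ wd f l x = y := by
      intro l
      induction l with
      | nil => intro hl x y; exact hF2 x y
      | cons i l ih =>
        intro hl x y
        have hl' : l.length + 1 ≤ r := hl
        have h1 := hF3 (i, ⟨⟨l, by omega⟩, hl'⟩) x y
        refine h1.trans ?_
        constructor
        · rintro ⟨u, h2, h3⟩
          have h4 : wd f l x = u := (ih (by omega) x u).1 h2
          have h5 : f i u = y := (hf' i u y).1 h3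
          rw [wd_cons, h4, h5]
        · intro h2
          exact ⟨wd f l x, (ih (by omega) x _).2 rfl, (hf' i _ y).2 h2⟩
    have hU1' : ∀ (p : Wd D r × Wd D r) (x : M), R (Sum.inr (Sum.inr (Sum.inl p))) (fun _ => x) ↔
        wd f p.1.1 x = wd f p.2.1 x := by
      intro p x
      rw [hU1]
      constructor
      · rintro ⟨y, h1, h2⟩
        exact ((hW _ p.1.2 x y).1 h1).trans ((hW _ p.2.2 x y).1 h2).symm
      · intro h1
        exact ⟨wd f p.1.1 x, (hW _ p.1.2 x _).2 rfl, (hW _ p.2.2 x _).2 h1.symm⟩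
    have hU2' : ∀ (p : Wd D r × K) (x : M), R (Sum.inr (Sum.inr (Sum.inr (Sum.inl p)))) (fun _ => x) ↔
        c p.2 (wd f p.1.1 x) := by
      intro p x
      rw [hU2]
      constructor
      · rintro ⟨y, h1, h2⟩
        have h3 : wd f p.1.1 x = y := (hW _ p.1.2 x y).1 h1
        rw [h3]
        exact h2
      · intro h1
        exact ⟨wd f p.1.1 x, (hW _ p.1.2 x _).2 rfl, h1⟩
    have hT : ∀ σ x, TyAt M R σ x ↔ tp f c r x = σ := by
      intro σ x
      constructor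
      · rintro ⟨h1, h2⟩
        refine Prod.ext ?_ ?_
        · funext w w'
          exact propext ((hU1' (w, w') x).symm.trans (h1 (w, w')))
        · funext w k
          exact propext ((hU2' (w, k) x).symm.trans (h2 (w, k)))
      · rintro rfl
        exact ⟨fun p => hU1' p x, fun p => hU2' p x⟩
    refine ⟨hn, M, hM, f, c, hc, ?_, ?_⟩
    · intro x i
      obtain ⟨j, hj⟩ := hU3 i x
      exact ⟨j, (hU1' _ x).1 hj⟩
    · intro σ
      obtain ⟨z1, z2, z3, z4⟩ := hZ σ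
      apply (count_iff (fun x => tp f c r x = σ) (hp σ)).1
      refine ⟨fun j x => R (Sum.inr (Sum.inr (Sum.inr (Sum.inr (σ, j))))) (fun _ => x), ?_, z2, z3, ?_⟩
      · intro j
        obtain ⟨x, hx1, hx2⟩ := z1 j
        exact ⟨x, hx1, (hT σ x).1 hx2⟩
      · intro h1 x hx
        exact z4 h1 x ((hT σ x).2 hx)

end Pool.Agent.Helper74.EX
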