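import Pool.Agent.Helper74.EX.Hanf
import Pool.Agent.Helper74.EX.Prof
import Pool.Agent.Helper29.EX.Sizes

/-!
# First-order properties of graphs of bounded degree outside a small set

The sizes of the graphs of bounded degree outside a small set with a first-order property are the sizes of the
models of a property of quantifier rank at most three in a finite vocabulary of unary and binary relations.
-/

set_option autoImplicit false

namespace Pool.Agent.Helper74.EX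

open FirstOrder FirstOrder.Language Pool.Agent.Helper20.Spectra Pool.Agent.Helper20.OP Pool.Agent.Helper38.EX
open Pool.Agent.Helper29.EX (Gr BD bdSizes)

/-- `BD` is definable. -/
theorem def_bd (z d : ℕ) : Def0 1 (fun _ R => BD z d (R 0)) := by
  have h1 : ∀ z' : Fin (z + 1), Def 1 0 (fun V R _ => ∃ σ : Fin z' → V, ∀ x : V,
      (¬ ∃ i, x = σ i) → ¬ ∃ g : Fin (d + 1) → V, (∀ i j, g i = g j → i = j) ∧
        ∀ i, (¬ ∃ j, g i = σ j) ∧ R 0 x (g i)) := by
    intro z'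
    refine Def.exTuple z' (P := fun V R _ σ => ∀ x : V,
      (¬ ∃ i, x = σ i) → ¬ ∃ g : Fin (d + 1) → V, (∀ i j, g i = g j → i = j) ∧
        ∀ i, (¬ ∃ j, g i = σ j) ∧ R 0 x (g i)) ?_
    refine Def.all (P := fun V R v x => (¬ ∃ i, x = v (Fin.natAdd 0 i)) → ¬ ∃ g : Fin (d + 1) → V,
      (∀ i j, g i = g j → i = j) ∧ ∀ i, (¬ ∃ j, g i = v (Fin.natAdd 0 j)) ∧ R 0 x (g i)) ?_
    refine ((Def.ex_fin (fun i => Def.eq _ _)).not).imp (Def.not ?_)
    refine Def.exTuple (d + 1) (P := fun V R v g => (∀ i j, g i = g j → i = j) ∧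
      ∀ i, (¬ ∃ j, g i = v (Fin.natAdd 0 j).castSucc) ∧ R 0 (v (Fin.last _)) (g i)) ?_
    exact (Def.all_fin (fun i => Def.all_fin (fun j => (Def.eq _ _).imp (Def.const _)))).and
      (Def.all_fin (fun i => ((Def.ex_fin (fun j => Def.eq _ _)).not).and (Def.rel 0 _ _)))
  refine (Def.ex_fin h1).congr fun V R _ => ?_
  constructor
  · rintro ⟨z', hz', σ, h⟩
    refine ⟨⟨z', by omega⟩, σ, fun x hx => ?_⟩
    rintro ⟨g, hg, hg'⟩
    refine h x (fun ⟨i, hi⟩ => hx ⟨i, hi.symm⟩) ⟨g, fun i j => hg i j, fun i => ⟨?_, (hg' i).2⟩⟩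
    rintro ⟨j, hj⟩
    exact (hg' i).1 ⟨j, hj.symm⟩
  · rintro ⟨z', σ, h⟩
    refine ⟨z', by omega, σ, fun x hx => ?_⟩
    rintro ⟨g, hg, hg'⟩
    refine h x (fun ⟨i, hi⟩ => hx ⟨i, hi.symm⟩) ⟨g, fun i j hij => hg hij, fun i => ⟨?_, (hg' i).2⟩⟩
    rintro ⟨j, hj⟩
    exact (hg' i).1 ⟨j, hj.symm⟩

lemma def_gr : Def0 1 (fun _ R => Gr (R 0)) := by
  have h1 : Def 1 0 (fun V R _ => (∀ x : V, ¬ R 0 x x) ∧ ∀ x y : V, R 0 x y → R 0 y x) :=
    (Def.all (Def.rel 0 _ _).not).and (Def.all (Def.all ((Def.rel 0 _ _).imp (Def.rel 0 _ _))))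
  exact h1.congr fun V R _ => ⟨fun h => ⟨h.irr, h.symm⟩, fun h => ⟨h.1, h.2⟩⟩

/-- graphs of bounded degree outside a small set have codes -/
lemma code_of_bd {n z d : ℕ} (R : Str 1 (Fin n)) (hG : Gr (R 0)) (hB : BD z d (R 0)) :
    ∃ (f : Fin (d + 1) → Fin n → Fin n) (c : Lab z → Fin n → Prop), Sy f ∧ dec f c = R := by
  classical
  obtain ⟨z', hz, σ, hσ⟩ := hB
  refine exists_code R hG.irr hG.symm (Set.range σ) ?_ ?_
  · rcases Nat.eq_zero_or_pos z' with h0 | h0
    · right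
      subst h0
      exact Set.range_eq_empty _
    · left
      refine ⟨fun i => σ ⟨min i (z' - 1), by omega⟩, ?_⟩
      ext x
      constructor
      · rintro ⟨i, rfl⟩
        exact ⟨⟨i, by omega⟩, by
          show σ _ = σ _
          congr 1
          apply Fin.ext
          show min (i : ℕ) (z' - 1) = i
          omega⟩
      · rintro ⟨i, rfl⟩
        exact ⟨_, rfl⟩
  · intro x hx
    refine ⟨Set.toFinite _, ?_⟩
    by_contra hcon
    push Not at hcon
    apply hσ x hx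
    have h1 : d + 1 ≤ Nat.card {y | y ∉ Set.range σ ∧ R 0 x y} := by
      rw [Nat.card_coe_set_eq]
      omega
    let e := Finite.equivFin {y | y ∉ Set.range σ ∧ R 0 x y}
    refine ⟨fun i => (e.symm ⟨i, by omega⟩).1, ?_, fun i => (e.symm ⟨i, by omega⟩).2⟩
    intro i j hij
    have h2 := e.symm.injective (Subtype.ext hij)
    exact Fin.ext (by simpa using congrArg Fin.val h2)

/-- **Bounded resources for graphs of bounded degree.** -/
theorem bd_BR (z d : ℕ) (Q : ∀ V : Type, Str 1 V → Prop) (hQ : Def0 1 Q) : BR 3 2 (bdSizes z d Q) := by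
  classical
  let P : ∀ V : Type, Str 1 V → Prop := fun V R => (Gr (R 0) ∧ BD z d (R 0)) ∧ Q V R
  have hP : Def0 1 P := (def_gr.and (def_bd z d)).and hQ
  obtain ⟨r, t, hr, hH⟩ := hanf (d + 1) z hP
  let T : Type := {p : Ty (d + 1) (Lab z) r → Fin (t + 1) // ∃ (n : ℕ) (f : Fin (d + 1) → Fin n → Fin n)
    (c : Lab z → Fin n → Prop), Sy f ∧ (∀ σ, min (cnt f c r σ) t = p σ) ∧ P (Fin n) (dec f c)}
  have h1 : bdSizes z d Q = ⋃ p : T, profSizes (d + 1) (Lab z) r t (fun σ => (p.1 σ : ℕ)) := by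
    ext n
    rw [Set.mem_iUnion]
    constructor
    · rintro ⟨hn, R, hG, hB, hQR⟩
      obtain ⟨f, c, hS, rfl⟩ := code_of_bd R hG hB
      refine ⟨⟨fun σ => ⟨min (cnt f c r σ) t, by omega⟩, n, f, c, hS, fun σ => rfl, ⟨hG, hB⟩, hQR⟩, hn, Fin n,
        inferInstance, f, c, by simp, hS, fun σ => rfl⟩
    · rintro ⟨⟨p, m, f', c', hS', hp', hP'⟩, hn, M, hM, f, c, hc, hS, hp⟩
      have hA : Agr f' c' f c r t := fun σ => (hp' σ).trans (hp σ).symm
      have h2 : P M (dec f c) := (hH _ _ f' c' f c hS' hS hA).1 hP'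
      let e : M ≃ Fin n := Fintype.equivFinOfCardEq hc
      have h3 := (Def0.iso hP e (dec f c)).1 h2
      exact ⟨hn, _, h3.1.1, h3.1.2, h3.2⟩
  rw [h1]
  exact BR.iUnion (fun p => profSizes_BR hr _ (fun σ => by have := (p.1 σ).2; omega))

end Pool.Agent.Helper74.EX
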