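import Pool.Agent.Helper74.EX.Words
import Pool.Agent.Helper20.OP.EF
import Pool.Agent.Helper20.OP.Interp

/-!
# Hanf's theorem for coded graphs

A code with labels `Sum.inl i` (hub `i`) and `Sum.inr i` (adjacent to hub `i`) determines a graph `dec f c`. The truth
of a first-order sentence in `dec f c` is determined by the numbers of elements of each type, up to a threshold.
-/

set_option autoImplicit false

namespace Pool.Agent.Helper74.EX

open FirstOrder FirstOrder.Language Pool.Agent.Helper20.Spectra Pool.Agent.Helper20.OP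

variable {V V' : Type} {D z : ℕ}

/-- the labels -/
abbrev Lab (z : ℕ) : Type := Fin z ⊕ Fin z

/-- the graph of a code -/
def dec (f : Fin D → V → V) (c : Lab z → V → Prop) : Str 1 V := fun _ x y =>
  (x ≠ y ∧ ∃ i, f i x = y) ∨ (∃ i, c (Sum.inl i) x ∧ c (Sum.inr i) y) ∨
    ∃ i, c (Sum.inl i) y ∧ c (Sum.inr i) x

variable {f : Fin D → V → V} {c : Lab z → V → Prop} {f' : Fin D → V' → V'} {c' : Lab z → V' → Prop}

lemma LE.atEq {r m : ℕ} (hr : 1 ≤ r) {v : Fin m → V} {v' : Fin m → V'} (h : LE f c f' c' r v v') :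
    AtEq (dec f c) (dec f' c') v v' := by
  have he : ∀ i j, v i = v j ↔ v' i = v' j := fun i j => h.1 i j [] [] (by simp) (by simp)
  refine ⟨he, fun s i j => ?_⟩
  have h1 : ∀ l : Fin D, f l (v i) = v j ↔ f' l (v' i) = v' j := fun l =>
    h.1 i j [l] [] (by simpa using hr) (by simp)
  have h2 : ∀ (i : Fin m) (k : Lab z), c k (v i) ↔ c' k (v' i) := fun i k => h.2 i k [] (by simp)
  unfold dec
  simp only [ne_eq, he, h1, h2]

lemma LE.efq [Finite V] [Finite V'] (hf : Sy f) (hf' : Sy f') {q t : ℕ}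
    (hA : Agr f c f' c' (3 ^ q) t) (ht : q * Nat.card (Wd D (2 * 3 ^ q)) < t) :
    ∀ (k m : ℕ) (v : Fin m → V) (v' : Fin m → V'), m + k ≤ q → LE f c f' c' (3 ^ k) v v' →
      EFq k (dec f c) (dec f' c') v v' := by
  have hstep : ∀ k m : ℕ, m + (k + 1) ≤ q → m * Nat.card (Wd D (2 * 3 ^ k)) < t := by
    intro k m hk
    refine lt_of_le_of_lt (Nat.mul_le_mul (by omega) (Wd.card_mono ?_)) ht
    exact Nat.mul_le_mul_left _ (Nat.pow_le_pow_right (by norm_num) (by omega))
  have hr : ∀ k m : ℕ, m + (k + 1) ≤ q → 3 ^ k ≤ 3 ^ q := fun k m hk =>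
    Nat.pow_le_pow_right (by norm_num) (by omega)
  intro k
  induction k with
  | zero =>
    intro m v v' _ h
    exact h.atEq (by norm_num)
  | succ k ih =>
    intro m v v' hk h
    have hA' := hA.mono_r (hr k m hk)
    have h3 : (3 ^ (k + 1) : ℕ) = 3 * 3 ^ k := by rw [pow_succ, mul_comm]
    rw [h3] at h
    refine ⟨h.atEq (by have : 0 < 3 ^ k := pow_pos (by norm_num) k; omega), ?_, ?_⟩
    · intro x
      obtain ⟨y, hy⟩ := exists_ext hf hf' h hA' (hstep k m hk) x
      exact ⟨y, ih (m + 1) _ _ (by omega) hy⟩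
    · intro y
      obtain ⟨x, hx⟩ := exists_ext hf' hf h.symm hA'.symm (hstep k m hk) y
      exact ⟨x, ih (m + 1) _ _ (by omega) hx.symm⟩

/-- **Hanf's theorem.** -/
theorem hanf (D z : ℕ) {P : ∀ V : Type, Str 1 V → Prop} (hP : Def0 1 P) : ∃ r t : ℕ, 2 ≤ r ∧
    ∀ (V V' : Type) [Finite V] [Finite V'] (f : Fin D → V → V) (c : Lab z → V → Prop) (f' : Fin D → V' → V')
      (c' : Lab z → V' → Prop), Sy f → Sy f' → Agr f c f' c' r t →
      (P V (dec f c) ↔ P V' (dec f' c')) := by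
  obtain ⟨φ, hφ⟩ := hP
  obtain ⟨q, hq⟩ := EFq.realize φ
  refine ⟨3 ^ (q + 1), (q + 1) * Nat.card (Wd D (2 * 3 ^ (q + 1))) + 1, ?_, ?_⟩
  · have : 0 < 3 ^ q := pow_pos (by norm_num) q
    rw [pow_succ]
    omega
  · intro V V' _ _ f c f' c' hf hf' hA
    have h1 : LE f c f' c' (3 ^ (q + 1)) (default : Fin 0 → V) (default : Fin 0 → V') :=
      ⟨fun i => i.elim0, fun i => i.elim0⟩
    have h2 := LE.efq hf hf' hA (Nat.lt_succ_self _) (q + 1) 0 _ _ (by omega) h1
    have h3 := hq V V' (dec f c) (dec f' c') default default (EFq.mono (Nat.le_succ q) h2)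
    exact ((hφ V (dec f c) default).symm.trans h3).trans (hφ V' (dec f' c') default)

/-! ## Encoding -/

/-- Every graph with a set of hubs such that each other vertex has at most `d` neighbours which are not hubs is
the graph of a code. -/
theorem exists_code {d : ℕ} (R : Str 1 V) (hirr : ∀ x, ¬ R 0 x x) (hsym : ∀ x y, R 0 x y → R 0 y x)
    (Z : Set V) (hZ : (∃ h : Fin z → V, Z = Set.range h) ∨ Z = ∅)
    (hd : ∀ x ∉ Z, {y | y ∉ Z ∧ R 0 x y}.Finite ∧ {y | y ∉ Z ∧ R 0 x y}.ncard ≤ d) :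
    ∃ (f : Fin (d + 1) → V → V) (c : Lab z → V → Prop), Sy f ∧ dec f c = R := by
  classical
  -- the functions
  have hex : ∀ x : V, ∃ g : Fin (d + 1) → V, ∀ y, (∃ i, g i = y) ↔ (y = x ∨ (x ∉ Z ∧ y ∉ Z ∧ R 0 x y)) := by
    intro x
    by_cases hx : x ∈ Z
    · refine ⟨fun _ => x, fun y => ?_⟩
      constructor
      · rintro ⟨_, rfl⟩
        exact Or.inl rfl
      · rintro (rfl | h)
        · exact ⟨0, rfl⟩
        · exact absurd hx h.1
    · obtain ⟨hfin, hcard⟩ := hd x hx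
      let s : Finset V := insert x hfin.toFinset
      have hs : s.card ≤ d + 1 := by
        refine (Finset.card_insert_le _ _).trans ?_
        rw [← Set.ncard_eq_toFinset_card _ hfin]
        omega
      have hmem : ∀ y, y ∈ s ↔ (y = x ∨ (x ∉ Z ∧ y ∉ Z ∧ R 0 x y)) := by
        intro y
        rw [Finset.mem_insert, Set.Finite.mem_toFinset]
        simp [hx]
      let e := s.equivFin
      have hpos : 0 < s.card := Finset.card_pos.mpr ⟨x, Finset.mem_insert_self _ _⟩
      refine ⟨fun i => if h : (i : ℕ) < s.card then (e.symm ⟨i, h⟩).1 else x, fun y => ?_⟩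
      rw [← hmem]
      constructor
      · rintro ⟨i, rfl⟩
        dsimp only
        split_ifs with h
        · exact (e.symm ⟨i, h⟩).2
        · exact Finset.mem_insert_self _ _
      · intro hy
        have hlt : ((e ⟨y, hy⟩ : Fin s.card) : ℕ) < d + 1 := lt_of_lt_of_le (e ⟨y, hy⟩).2 hs
        refine ⟨⟨_, hlt⟩, ?_⟩
        dsimp only
        rw [dif_pos (e ⟨y, hy⟩).2]
        simp
  choose g hg using hex
  let f : Fin (d + 1) → V → V := fun i x => g x i
  have hf : ∀ x y, (∃ i, f i x = y) ↔ (y = x ∨ (x ∉ Z ∧ y ∉ Z ∧ R 0 x y)) := fun x y => hg x y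
  have hSy : Sy f := by
    intro x i
    have h1 := (hf x (f i x)).1 ⟨i, rfl⟩
    apply (hf (f i x) x).2
    rcases h1 with h1 | ⟨h1, h2, h3⟩
    · exact Or.inl h1.symm
    · exact Or.inr ⟨h2, h1, hsym _ _ h3⟩
  -- the labels
  obtain ⟨c, hc⟩ : ∃ c : Lab z → V → Prop, ∀ x y,
      (∃ i, c (Sum.inl i) x ∧ c (Sum.inr i) y) ↔ (x ∈ Z ∧ R 0 x y) := by
    rcases hZ with ⟨h, rfl⟩ | rfl
    · refine ⟨Sum.elim (fun i x => x = h i) (fun i y => R 0 (h i) y), fun x y => ?_⟩
      constructor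
      · rintro ⟨i, hi, hi'⟩
        have hi : x = h i := hi
        subst hi
        exact ⟨⟨i, rfl⟩, hi'⟩
      · rintro ⟨⟨i, rfl⟩, hR⟩
        exact ⟨i, rfl, hR⟩
    · refine ⟨fun _ _ => False, fun x y => ?_⟩
      constructor
      · rintro ⟨i, hi, _⟩
        exact hi.elim
      · rintro ⟨h, _⟩
        exact h.elim
  refine ⟨f, c, hSy, ?_⟩
  funext s x y
  have hs : s = 0 := Subsingleton.elim _ _
  subst hs
  refine propext ?_
  show ((x ≠ y ∧ ∃ i, f i x = y) ∨ (∃ i, c (Sum.inl i) x ∧ c (Sum.inr i) y) ∨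
    ∃ i, c (Sum.inl i) y ∧ c (Sum.inr i) x) ↔ R 0 x y
  rw [hf, hc, hc]
  constructor
  · rintro (⟨h1, h2 | h2⟩ | h2 | h2)
    · exact absurd h2.symm h1
    · exact h2.2.2
    · exact h2.2
    · exact hsym _ _ h2.2
  · intro h
    have hne : x ≠ y := by
      rintro rfl
      exact hirr x h
    by_cases hx : x ∈ Z
    · exact Or.inr (Or.inl ⟨hx, h⟩)
    · by_cases hy : y ∈ Z
      · exact Or.inr (Or.inr ⟨hy, hsym _ _ h⟩)
      · exact Or.inl ⟨hne, Or.inr ⟨hx, hy, h⟩⟩

end Pool.Agent.Helper74.EX
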