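import Mathlib

/-!
# Local types of structures with unary functions, and the extension property

A code is a set with `D` unary functions `f` and unary predicates `c`; `wd f w x` is the value of the word `w`
at `x`, `tp f c r x` the type of `x` (the equalities between the values of words of length at most `r` and the
predicates at these values), `cnt` the number of elements of a type. `Sy f`: every step of a function can be
reversed by one of the functions. Two codes with the same numbers of elements of each type (up to a threshold)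
have the extension property `exists_ext`.
-/

set_option autoImplicit false

namespace Pool.Agent.Helper74.EX

variable {V V' : Type} {D : ℕ} {K : Type}

/-- the value of a word -/
def wd (f : Fin D → V → V) (w : List (Fin D)) (x : V) : V := w.foldr (fun i y => f i y) x

/-- the words of length at most `r` -/
abbrev Wd (D r : ℕ) : Type := {w : List (Fin D) // w.length ≤ r}

instance Wd.finite {D r : ℕ} : Finite (Wd D r) := (List.finite_length_le (Fin D) r).to_subtype

lemma Wd.card_mono {D r s : ℕ} (h : r ≤ s) : Nat.card (Wd D r) ≤ Nat.card (Wd D s) :=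
  Nat.card_le_card_of_injective (fun w : Wd D r => (⟨w.1, w.2.trans h⟩ : Wd D s)) (by
    intro w u h'
    exact Subtype.ext (by simpa using h'))

@[simp] lemma wd_nil (f : Fin D → V → V) (x : V) : wd f [] x = x := rfl

@[simp] lemma wd_cons (f : Fin D → V → V) (i : Fin D) (w : List (Fin D)) (x : V) :
    wd f (i :: w) x = f i (wd f w x) := rfl

lemma wd_append (f : Fin D → V → V) (w u : List (Fin D)) (x : V) :
    wd f (w ++ u) x = wd f w (wd f u x) := by
  induction w with
  | nil => rfl
  | cons i w ih => rw [List.cons_append, wd_cons, wd_cons, ih]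

/-- every step can be reversed -/
def Sy (f : Fin D → V → V) : Prop := ∀ x i, ∃ j, f j (f i x) = x

lemma Sy.rev {f : Fin D → V → V} (hf : Sy f) : ∀ (w : List (Fin D)) (x : V),
    ∃ u : List (Fin D), u.length = w.length ∧ wd f u (wd f w x) = x := by
  intro w
  induction w with
  | nil => intro x; exact ⟨[], rfl, rfl⟩
  | cons i w ih =>
    intro x
    obtain ⟨u, hu, hux⟩ := ih x
    obtain ⟨j, hj⟩ := hf (wd f w x) i
    refine ⟨u ++ [j], by simp [hu], ?_⟩
    rw [wd_append, wd_cons, wd_cons, wd_nil, hj, hux]

/-- the types of radius `r` -/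
abbrev Ty (D : ℕ) (K : Type) (r : ℕ) : Type := (Wd D r → Wd D r → Prop) × (Wd D r → K → Prop)

/-- the type of an element -/
def tp (f : Fin D → V → V) (c : K → V → Prop) (r : ℕ) (x : V) : Ty D K r :=
  (fun w u => wd f w.1 x = wd f u.1 x, fun w k => c k (wd f w.1 x))

/-- the number of elements of a type -/
noncomputable def cnt (f : Fin D → V → V) (c : K → V → Prop) (r : ℕ) (σ : Ty D K r) : ℕ :=
  Nat.card {x : V // tp f c r x = σ}

/-- local equivalence of tuples -/
def LE (f : Fin D → V → V) (c : K → V → Prop) (f' : Fin D → V' → V') (c' : K → V' → Prop) (r : ℕ) {m : ℕ}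
    (v : Fin m → V) (v' : Fin m → V') : Prop :=
  (∀ i j (w u : List (Fin D)), w.length ≤ r → u.length ≤ r →
    (wd f w (v i) = wd f u (v j) ↔ wd f' w (v' i) = wd f' u (v' j))) ∧
  ∀ i k (w : List (Fin D)), w.length ≤ r → (c k (wd f w (v i)) ↔ c' k (wd f' w (v' i)))

/-- the numbers of elements of each type agree up to the threshold `t` -/
def Agr (f : Fin D → V → V) (c : K → V → Prop) (f' : Fin D → V' → V') (c' : K → V' → Prop) (r t : ℕ) : Prop :=
  ∀ σ : Ty D K r, min (cnt f c r σ) t = min (cnt f' c' r σ) t

variable {f : Fin D → V → V} {c : K → V → Prop} {f' : Fin D → V' → V'} {c' : K → V' → Prop}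

lemma LE.symm {r m : ℕ} {v : Fin m → V} {v' : Fin m → V'} (h : LE f c f' c' r v v') :
    LE f' c' f c r v' v :=
  ⟨fun i j w u hw hu => (h.1 i j w u hw hu).symm, fun i k w hw => (h.2 i k w hw).symm⟩

lemma Agr.symm {r t : ℕ} (h : Agr f c f' c' r t) : Agr f' c' f c r t := fun σ => (h σ).symm

/-- restriction of types -/
def res {r s : ℕ} (h : r ≤ s) (σ : Ty D K s) : Ty D K r :=
  (fun w u => σ.1 ⟨w.1, w.2.trans h⟩ ⟨u.1, u.2.trans h⟩, fun w k => σ.2 ⟨w.1, w.2.trans h⟩ k)

lemma res_tp {r s : ℕ} (h : r ≤ s) (x : V) : res h (tp f c s x) = tp f c r x := rfl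

lemma cnt_eq_sum [Finite V] [Finite K] {r s : ℕ} (h : r ≤ s) (σ : Ty D K r) :
    cnt f c r σ = ∑ᶠ ρ : {ρ : Ty D K s // res h ρ = σ}, cnt f c s ρ.1 := by
  classical
  have := Fintype.ofFinite {ρ : Ty D K s // res h ρ = σ}
  rw [finsum_eq_sum_of_fintype]
  let F : {x : V // tp f c r x = σ} → {ρ : Ty D K s // res h ρ = σ} := fun x =>
    ⟨tp f c s x.1, by rw [res_tp, x.2]⟩
  have h1 : cnt f c r σ = Nat.card (Σ ρ, {x // F x = ρ}) := Nat.card_congr (Equiv.sigmaFiberEquiv F).symm
  rw [h1, Nat.card_sigma]
  refine Finset.sum_congr rfl (fun ρ _ => ?_)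
  refine Nat.card_congr ⟨fun x => ⟨x.1.1, congrArg Subtype.val x.2⟩,
    fun y => ⟨⟨y.1, ?_⟩, Subtype.ext y.2⟩, fun x => rfl, fun y => rfl⟩
  rw [← res_tp h, y.2, ρ.2]

lemma Agr.mono_r [Finite V] [Finite V'] [Finite K] {r s t : ℕ} (hA : Agr f c f' c' s t) (h : r ≤ s) :
    Agr f c f' c' r t := by
  classical
  intro σ
  have := Fintype.ofFinite {ρ : Ty D K s // res h ρ = σ}
  rw [cnt_eq_sum h, cnt_eq_sum h, finsum_eq_sum_of_fintype, finsum_eq_sum_of_fintype]
  by_cases H : ∃ ρ : {ρ : Ty D K s // res h ρ = σ}, t ≤ cnt f c s ρ.1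
  · obtain ⟨ρ, hρ⟩ := H
    have h2 : t ≤ cnt f' c' s ρ.1 := by
      have := hA ρ.1
      omega
    have h3 : cnt f c s ρ.1 ≤ ∑ ρ : {ρ : Ty D K s // res h ρ = σ}, cnt f c s ρ.1 :=
      Finset.single_le_sum (f := fun ρ : {ρ : Ty D K s // res h ρ = σ} => cnt f c s ρ.1)
        (fun _ _ => Nat.zero_le _) (Finset.mem_univ ρ)
    have h4 : cnt f' c' s ρ.1 ≤ ∑ ρ : {ρ : Ty D K s // res h ρ = σ}, cnt f' c' s ρ.1 :=
      Finset.single_le_sum (f := fun ρ : {ρ : Ty D K s // res h ρ = σ} => cnt f' c' s ρ.1)
        (fun _ _ => Nat.zero_le _) (Finset.mem_univ ρ)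
    rw [min_eq_right (hρ.trans h3), min_eq_right (h2.trans h4)]
  · push Not at H
    congr 1
    apply Finset.sum_congr rfl
    intro ρ _
    have h1 := H ρ
    have h2 := hA ρ.1
    omega

lemma Agr.mono_t {r t u : ℕ} (hA : Agr f c f' c' r t) (h : u ≤ t) : Agr f c f' c' r u := by
  intro σ
  have := hA σ
  omega

lemma LE.mono {r s m : ℕ} {v : Fin m → V} {v' : Fin m → V'} (h : LE f c f' c' s v v') (hr : r ≤ s) :
    LE f c f' c' r v v' :=
  ⟨fun i j w u hw hu => h.1 i j w u (hw.trans hr) (hu.trans hr), fun i k w hw => h.2 i k w (hw.trans hr)⟩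

/-- the types of corresponding near elements -/
lemma LE.tp_eq {r s m : ℕ} {v : Fin m → V} {v' : Fin m → V'} (h : LE f c f' c' s v v') (i : Fin m)
    (u : List (Fin D)) (hr : r + u.length ≤ s) : tp f c r (wd f u (v i)) = tp f' c' r (wd f' u (v' i)) := by
  have h1 : ∀ w : Wd D r, (w.1 ++ u).length ≤ s := by
    intro w
    have := w.2
    rw [List.length_append]
    omega
  refine Prod.ext ?_ ?_
  · funext w w'
    refine propext ?_
    show wd f w.1 (wd f u (v i)) = wd f w'.1 (wd f u (v i)) ↔
      wd f' w.1 (wd f' u (v' i)) = wd f' w'.1 (wd f' u (v' i))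
    rw [← wd_append, ← wd_append, ← wd_append, ← wd_append]
    exact h.1 i i _ _ (h1 w) (h1 w')
  · funext w k
    refine propext ?_
    show c k (wd f w.1 (wd f u (v i))) ↔ c' k (wd f' w.1 (wd f' u (v' i)))
    rw [← wd_append, ← wd_append]
    exact h.2 i k _ (h1 w)

/-- two maps with the same kernel have ranges of the same size -/
lemma card_range_eq {S A B : Type} (g : S → A) (g' : S → B) (h : ∀ s s', g s = g s' ↔ g' s = g' s') :
    Nat.card (Set.range g) = Nat.card (Set.range g') := by
  refine (Nat.card_congr (Setoid.quotientKerEquivRange g)).symm.trans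
    (Eq.trans ?_ (Nat.card_congr (Setoid.quotientKerEquivRange g')))
  have : Setoid.ker g = Setoid.ker g' := by
    ext s s'
    exact h s s'
  rw [this]

/-- **Extension.** -/
theorem exists_ext [Finite V] [Finite V'] (hf : Sy f) (hf' : Sy f') {m r t : ℕ} {v : Fin m → V}
    {v' : Fin m → V'} (h : LE f c f' c' (3 * r) v v') (hA : Agr f c f' c' r t)
    (ht : m * Nat.card (Wd D (2 * r)) < t) (x : V) :
    ∃ y, LE f c f' c' r (Fin.snoc v x : Fin (m + 1) → V) (Fin.snoc v' y) := by
  classical
  by_cases hx : ∃ (i : Fin m) (u : List (Fin D)), u.length ≤ 2 * r ∧ wd f u (v i) = x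
  · -- the new element is near
    obtain ⟨i, u, hu, rfl⟩ := hx
    refine ⟨wd f' u (v' i), ⟨?_, ?_⟩⟩
    · intro a b w w' hw hw'
      induction a using Fin.lastCases with
      | last =>
        induction b using Fin.lastCases with
        | last =>
          simp only [Fin.snoc_last]
          rw [← wd_append, ← wd_append, ← wd_append, ← wd_append]
          exact h.1 i i _ _ (by rw [List.length_append]; omega) (by rw [List.length_append]; omega)
        | cast b =>
          simp only [Fin.snoc_last, Fin.snoc_castSucc]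
          rw [← wd_append, ← wd_append]
          exact h.1 i b _ _ (by rw [List.length_append]; omega) (by omega)
      | cast a =>
        induction b using Fin.lastCases with
        | last =>
          simp only [Fin.snoc_last, Fin.snoc_castSucc]
          rw [← wd_append, ← wd_append]
          exact h.1 a i _ _ (by omega) (by rw [List.length_append]; omega)
        | cast b =>
          simp only [Fin.snoc_castSucc]
          exact h.1 a b _ _ (by omega) (by omega)
    · intro a k w hw
      induction a using Fin.lastCases with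
      | last =>
        simp only [Fin.snoc_last]
        rw [← wd_append, ← wd_append]
        exact h.2 i k _ (by rw [List.length_append]; omega)
      | cast a =>
        simp only [Fin.snoc_castSucc]
        exact h.2 a k _ (by omega)
  · -- the new element is far away
    push Not at hx
    let σ := tp f c r x
    let S : Type := {p : Fin m × Wd D (2 * r) // tp f c r (wd f p.2.1 (v p.1)) = σ}
    have htp : ∀ (i : Fin m) (u : Wd D (2 * r)), tp f c r (wd f u.1 (v i)) = tp f' c' r (wd f' u.1 (v' i)) :=
      fun i u => h.tp_eq i u.1 (by have := u.2; omega)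
    let g : S → {x : V // tp f c r x = σ} := fun p => ⟨wd f p.1.2.1 (v p.1.1), p.2⟩
    let g' : S → {x : V' // tp f' c' r x = σ} := fun p =>
      ⟨wd f' p.1.2.1 (v' p.1.1), by rw [← htp]; exact p.2⟩
    have hgg : Nat.card (Set.range g) = Nat.card (Set.range g') := by
      apply card_range_eq
      intro p p'
      rw [Subtype.ext_iff, Subtype.ext_iff]
      have h1 := p.1.2.2
      have h2 := p'.1.2.2
      exact h.1 _ _ _ _ (by omega) (by omega)
    have hle : Nat.card (Set.range g) < t := by
      refine lt_of_le_of_lt ?_ ht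
      calc Nat.card (Set.range g) ≤ Nat.card S := Finite.card_range_le g
        _ ≤ Nat.card (Fin m × Wd D (2 * r)) := Finite.card_subtype_le _
        _ = m * Nat.card (Wd D (2 * r)) := by rw [Nat.card_prod, Nat.card_eq_fintype_card, Fintype.card_fin]
    have hlt : Nat.card (Set.range g) < cnt f c r σ := by
      unfold cnt
      rw [Nat.card_coe_set_eq, ← Set.ncard_univ]
      apply Set.ncard_lt_ncard _ (Set.toFinite _)
      rw [Set.ssubset_univ_iff]
      intro h1
      have h2 : (⟨x, rfl⟩ : {x : V // tp f c r x = σ}) ∈ Set.range g := by rw [h1]; trivial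
      obtain ⟨p, hp⟩ := h2
      exact hx p.1.1 p.1.2.1 p.1.2.2 (congrArg Subtype.val hp)
    have hlt' : Nat.card (Set.range g') < cnt f' c' r σ := by
      have := hA σ
      omega
    obtain ⟨⟨y, hy⟩, hyg⟩ : ∃ y : {x : V' // tp f' c' r x = σ}, y ∉ Set.range g' := by
      by_contra hcon
      push Not at hcon
      have h1 : Set.range g' = Set.univ := Set.eq_univ_of_forall hcon
      rw [h1, Nat.card_coe_set_eq, Set.ncard_univ] at hlt'
      exact lt_irrefl _ hlt'
    have hyf : ∀ (i : Fin m) (u : List (Fin D)), u.length ≤ 2 * r → wd f' u (v' i) ≠ y := by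
      intro i u hu hyu
      apply hyg
      refine ⟨⟨(i, ⟨u, hu⟩), ?_⟩, ?_⟩
      · show tp f c r (wd f u (v i)) = σ
        rw [htp i ⟨u, hu⟩]
        show tp f' c' r (wd f' u (v' i)) = σ
        rw [hyu, hy]
      · exact Subtype.ext hyu
    -- words at the new element and at an old one have different values
    have hfar : ∀ (i : Fin m) (w u : List (Fin D)), w.length ≤ r → u.length ≤ r → wd f w x ≠ wd f u (v i) := by
      intro i w u hw hu he
      obtain ⟨w', hw', hwx⟩ := hf.rev w x
      rw [he, ← wd_append] at hwx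
      exact hx i (w' ++ u) (by rw [List.length_append]; omega) hwx
    have hfar' : ∀ (i : Fin m) (w u : List (Fin D)), w.length ≤ r → u.length ≤ r →
        wd f' w y ≠ wd f' u (v' i) := by
      intro i w u hw hu he
      obtain ⟨w', hw', hwx⟩ := hf'.rev w y
      rw [he, ← wd_append] at hwx
      exact hyf i (w' ++ u) (by rw [List.length_append]; omega) hwx
    refine ⟨y, ⟨?_, ?_⟩⟩
    · intro a b w w' hw hw'
      induction a using Fin.lastCases with
      | last =>
        induction b using Fin.lastCases with
        | last =>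
          simp only [Fin.snoc_last]
          have h1 := congrFun (congrFun (congrArg Prod.fst hy) ⟨w, hw⟩) ⟨w', hw'⟩
          exact Iff.of_eq h1.symm
        | cast b =>
          simp only [Fin.snoc_last, Fin.snoc_castSucc]
          exact iff_of_false (hfar b w w' hw hw') (hfar' b w w' hw hw')
      | cast a =>
        induction b using Fin.lastCases with
        | last =>
          simp only [Fin.snoc_last, Fin.snoc_castSucc]
          exact iff_of_false (fun e => hfar a w' w hw' hw e.symm) (fun e => hfar' a w' w hw' hw e.symm)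
        | cast b =>
          simp only [Fin.snoc_castSucc]
          exact h.1 a b _ _ (by omega) (by omega)
    · intro a k w hw
      induction a using Fin.lastCases with
      | last =>
        simp only [Fin.snoc_last]
        have h1 := congrFun (congrFun (congrArg Prod.snd hy) ⟨w, hw⟩) k
        exact Iff.of_eq h1.symm
      | cast a =>
        simp only [Fin.snoc_castSucc]
        exact h.2 a k _ (by omega)

end Pool.Agent.Helper74.EX
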